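import Pool.Agent.P.MP_9167e9_an.Bas.Main

/-!
Local structure of the concrete cells: geodesics use only edges of connecting paths, core words,
address words.
-/

noncomputable section
open scoped Classical

namespace Pool.Agent.P.MP_9167e9_an

namespace CL

open FreeGroup Bas

section Gen

variable {S : Type} (St : FreeGroup S → S → Prop)

/-- All edges of the walk `v` from `x` satisfy `St` (named by source and label). -/
def Wk (x : FreeGroup S) : List (S × Bool) → Prop
  | [] => True
  | (s, true) :: v => Wk x v ∧ St (mk v * x) s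
  | (s, false) :: v => Wk x v ∧ St ((of s)⁻¹ * (mk v * x)) s

theorem Wk.tail {St : FreeGroup S → S → Prop} {x : FreeGroup S} {l : S × Bool}
    {v : List (S × Bool)} (h : Wk St x (l :: v)) : Wk St x v := by
  obtain ⟨s, b⟩ := l
  cases b <;> exact h.1

/-- There is a reduced walk with good edges. -/
def Rel (x y : FreeGroup S) : Prop := ∃ v, IsReduced v ∧ y = mk v * x ∧ Wk St x v

theorem Rel.refl (x : FreeGroup S) : Rel St x x := ⟨[], IsReduced.nil, by simp [mk_nil], trivial⟩

theorem Rel.step {x y : FreeGroup S} {s : S} (h : St y s) : Rel St x y ↔ Rel St x (of s * y) := by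
  constructor
  · rintro ⟨v, hv, rfl, hw⟩
    by_cases h1 : IsReduced ((s, true) :: v)
    · exact ⟨_, h1, by rw [mk_cons, mk_true, mul_assoc], hw, h⟩
    · obtain _ | ⟨⟨s', b⟩, v⟩ := v
      · exact absurd IsReduced.singleton h1
      · rw [isReduced_cons_cons] at h1
        have h2 : s = s' ∧ b = false := by
          by_contra h3
          refine h1 ⟨fun h4 => ?_, hv⟩
          cases b
          · exact absurd ⟨h4, rfl⟩ h3
          · rfl
        obtain ⟨rfl, rfl⟩ := h2
        exact ⟨v, red_tail hv, by rw [mk_cons, mk_false, mul_assoc, mul_inv_cancel_left], hw.1⟩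
  · rintro ⟨v, hv, e, hw⟩
    have e' : y = (of s)⁻¹ * (mk v * x) := by rw [← e, inv_mul_cancel_left]
    by_cases h1 : IsReduced ((s, false) :: v)
    · exact ⟨_, h1, by rw [mk_cons, mk_false, mul_assoc, e'], hw, e' ▸ h⟩
    · obtain _ | ⟨⟨s', b⟩, v⟩ := v
      · exact absurd IsReduced.singleton h1
      · rw [isReduced_cons_cons] at h1
        have h2 : s = s' ∧ b = true := by
          by_contra h3
          refine h1 ⟨fun h4 => ?_, hv⟩
          cases b
          · rfl
          · exact absurd ⟨h4, rfl⟩ h3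
        obtain ⟨rfl, rfl⟩ := h2
        exact ⟨v, red_tail hv, by rw [e', mk_cons, mk_true, mul_assoc, inv_mul_cancel_left], hw.1⟩

theorem red_inj {u v : List (S × Bool)} (hu : IsReduced u) (hv : IsReduced v) (h : mk u = mk v) :
    u = v := by
  have h1 := congrArg (@toWord S (Classical.decEq S)) h
  rwa [toWord_mk, toWord_mk, hu.reduce_eq, hv.reduce_eq] at h1

/-- If every point of `T` is joined to `1` by good edges, geodesics inside `T` are good. -/
theorem wk_of {T : FreeGroup S → Prop} (hT : ∀ y, T y → ∀ x, Rel St x y ↔ Rel St x 1)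
    {x : FreeGroup S} {v : List (S × Bool)} (hv : IsReduced v) (hx : T x) (hy : T (mk v * x)) :
    Wk St x v := by
  obtain ⟨u, hu, e, hw⟩ := (hT _ hy x).2 ((hT x hx x).1 (Rel.refl St x))
  rwa [red_inj hv hu (mul_right_cancel e)]

end Gen

section Core

variable {P : Prm} {c : Cell P}

/-- A core edge. -/
def CE (c : Cell P) (y : FreeGroup P.S) (s : P.S) : Prop :=
  c.Qc y ∧ s = c.lab (c.τ (P.slot s) (c.vx y)) (P.slot s)

theorem CE.bwd (hl : ∀ v i, P.slot (c.lab v i) = i) {x : FreeGroup P.S} (hx : c.Qc x)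
    (i : Fin P.j) : CE c ((of (c.lab (c.vx x) i))⁻¹ * x) (c.lab (c.vx x) i) :=
  ⟨.bwd x i hx, by rw [vx_inv, hl]; simp⟩

theorem rel_core (hl : ∀ v i, P.slot (c.lab v i) = i) {St : FreeGroup P.S → P.S → Prop}
    (hS : ∀ y s, CE c y s → St y s) {y : FreeGroup P.S} (hy : c.Qc y) (x : FreeGroup P.S) :
    Rel St x y ↔ Rel St x 1 := by
  induction hy with
  | one => rfl
  | fwd y i hy ih => exact (Rel.step St (hS _ _ ⟨hy, by rw [hl]⟩)).symm.trans ih
  | bwd y i hy ih =>
    have := Rel.step St (x := x) (hS _ _ (CE.bwd hl hy i))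
    rw [mul_inv_cancel_left] at this
    exact this.trans ih

theorem wk_core (hl : ∀ v i, P.slot (c.lab v i) = i) {x : FreeGroup P.S} {v : List (P.S × Bool)}
    (hv : IsReduced v) (hx : c.Qc x) (hy : c.Qc (mk v * x)) : Wk (CE c) x v :=
  wk_of _ (fun _ h => rel_core hl (fun _ _ h => h) h) hv hx hy

theorem ap_inv {V : Type} (σ : Equiv.Perm V) (v : V) : σ (σ⁻¹ v) = v := by simp
theorem inv_ap {V : Type} (σ : Equiv.Perm V) (v : V) : σ⁻¹ (σ v) = v := by simp

theorem vx_mk (x : FreeGroup P.S) (v : List (P.S × Bool)) :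
    c.vx (mk v * x) = go c.τ (sw v) (c.vx x) :=
  (congrArg Prod.fst (cp_mk (c := c) x v)).trans (go_fst _ _ _)

/-- Labels along a walk whose edges carry the labels `lam` of their shadows. -/
theorem labs_of {A : Type} (f : P.S → A) (lam : c.V → Fin P.j → A) {x : FreeGroup P.S} :
    ∀ {v : List (P.S × Bool)},
      Wk (fun y s => f s = lam (c.τ (P.slot s) (c.vx y)) (P.slot s)) x v →
      v.map (fun l => f l.1) = labs c.τ lam (sw v) (c.vx x)
  | [], _ => rfl
  | (s, true) :: v, h => by
    have h2 := h.2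
    beta_reduce at h2
    rw [vx_mk] at h2
    exact List.cons_eq_cons.2 ⟨h2, labs_of f lam h.1⟩
  | (s, false) :: v, h => by
    have h2 := h.2
    beta_reduce at h2
    rw [vx_inv, ap_inv, vx_mk] at h2
    exact List.cons_eq_cons.2 ⟨h2, labs_of f lam h.1⟩

theorem Wk.mono {S : Type} {St St' : FreeGroup S → S → Prop} (h : ∀ y s, St y s → St' y s)
    {x : FreeGroup S} : ∀ {v : List (S × Bool)}, Wk St x v → Wk St' x v
  | [], _ => trivial
  | (_, true) :: _, h1 => ⟨Wk.mono h h1.1, h _ _ h1.2⟩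
  | (_, false) :: _, h1 => ⟨Wk.mono h h1.1, h _ _ h1.2⟩

theorem Wk.right {S : Type} {St : FreeGroup S → S → Prop} {x : FreeGroup S}
    {v : List (S × Bool)} : ∀ {u : List (S × Bool)}, Wk St x (u ++ v) → Wk St x v
  | [], h => h
  | _ :: _, h => Wk.right h.tail

theorem sw_red (hl : ∀ v i, P.slot (c.lab v i) = i) {x : FreeGroup P.S} :
    ∀ {v : List (P.S × Bool)}, IsReduced v → Wk (CE c) x v → IsReduced (sw v)
  | [], _, _ => IsReduced.nil
  | [_], _, _ => IsReduced.singleton
  | (s, b) :: (s', b') :: v, h, h2 => by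
    refine isReduced_cons_cons.2 ⟨fun hs => ?_, sw_red hl (red_tail h) h2.tail⟩
    have hs' : P.slot s = P.slot s' := hs
    have hr := (isReduced_cons_cons.1 h).1
    show b = b'
    cases b <;> cases b'
    · rfl
    · refine hr ?_
      have k1 := h2.2.2
      have k2 := h2.1.2.2
      rw [vx_inv, ap_inv, mk_cons, mk_true, mul_assoc, vx_of, hs'] at k1
      exact k1.trans k2.symm
    · refine hr ?_
      have k1 := h2.2.2
      have k2 := h2.1.2.2
      rw [mk_cons, mk_false, mul_assoc, hs'] at k1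
      exact k1.trans k2.symm
    · rfl

end Core

variable {j h a b D : ℕ} [NeZero D] (K : Core j h a b)

/-- The letter spelled by `l` after the address `w`. -/
def lt (T : List (AL j D) → Fin j → ZMod D) (y : K.V) (l : AL j D) (w : List (AL j D)) :
    (cprm j h a b D).S × Bool :=
  match l with
  | (i, some ι) => ((i, K.lam (K.τ i (go K.τ (sl w) y)) i, ι + T w i), true)
  | (i, none) => ((i, K.lam (go K.τ (sl w) y) i, T ((i, none) :: w) i), false)

/-- The word of an address. -/
def al (T : List (AL j D) → Fin j → ZMod D) (y : K.V) :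
    List (AL j D) → List ((cprm j h a b D).S × Bool)
  | [] => []
  | l :: w => lt K T y l w :: al T y w

variable (T : List (AL j D) → Fin j → ZMod D) (y : K.V)

theorem aw_eq : ∀ w, K.aw T y w = mk (al K T y w)
  | [] => rfl
  | (i, some ι) :: w => by rw [Core.aw, aw_eq w]; rfl
  | (i, none) :: w => by rw [Core.aw, aw_eq w]; rfl

theorem al_length : ∀ w, (al K T y w).length = w.length
  | [] => rfl
  | _ :: w => congrArg (· + 1) (al_length w)

theorem sw_al : ∀ w, sw (al K T y w) = sl w
  | [] => rfl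
  | (_, some _) :: w => congrArg (_ :: ·) (sw_al w)
  | (_, none) :: w => congrArg (_ :: ·) (sw_al w)

theorem al_red : ∀ {w}, w.IsChain AOk → IsReduced (al K T y w)
  | [], _ => IsReduced.nil
  | [_], _ => IsReduced.singleton
  | l :: l' :: w, h => by
    rw [List.isChain_cons_cons] at h
    refine isReduced_cons_cons.2 ⟨fun hs => ?_, al_red h.2⟩
    obtain ⟨i, _ | ι⟩ := l <;> obtain ⟨i', _ | ι'⟩ := l'
    · rfl
    · exact absurd ((h.1 (congrArg Prod.fst hs : i = i')).1 rfl) (by simp)
    · obtain rfl : i = i' := congrArg Prod.fst hs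
      have h3 : ι + T ((i, none) :: w) i = T ((i, none) :: w) i := congrArg (·.2.2) hs
      exact absurd (congrArg some (add_eq_right.1 h3)) ((h.1 rfl).2 rfl)
    · rfl

theorem al_inj : ∀ {w w'}, al K T y w = al K T y w' → w = w'
  | [], [], _ => rfl
  | [], _ :: _, h => by simp [al] at h
  | _ :: _, [], h => by simp [al] at h
  | l :: w, l' :: w', h => by
    obtain ⟨h1, h2⟩ := List.cons_eq_cons.1 h
    obtain rfl := al_inj h2
    obtain ⟨i, _ | ι⟩ := l <;> obtain ⟨i', _ | ι'⟩ := l'
    · obtain rfl : i = i' := congrArg (·.1.1) h1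
      rfl
    · exact absurd (congrArg Prod.snd h1) (by simp [lt])
    · exact absurd (congrArg Prod.snd h1) (by simp [lt])
    · obtain rfl : i = i' := congrArg (·.1.1) h1
      have h3 : ι + T w i = ι' + T w i := congrArg (·.1.2.2) h1
      rw [add_right_cancel h3]

theorem nr_aw {w : List (AL j D)} (h : w.IsChain AOk) : nr (K.aw T y w) = w.length := by
  rw [aw_eq, nr_mk (al_red K T y h), al_length]

theorem aw_inj {w w' : List (AL j D)} (h : w.IsChain AOk) (h' : w'.IsChain AOk)
    (e : K.aw T y w = K.aw T y w') : w = w' := by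
  rw [aw_eq, aw_eq] at e
  exact al_inj K T y (red_inj (al_red K T y h) (al_red K T y h') e)

variable (t : K.V → Om j D (K.R ^ 14))

theorem Qc_iff (x : FreeGroup (cprm j h a b D).S) : (K.cell0 t).Qc x ↔ (K.cell t).Qc x := by
  constructor <;> intro hx <;> induction hx with
  | one => exact .one
  | fwd x i _ ih => exact .fwd x i ih
  | bwd x i _ ih => exact .bwd x i ih

/-- Tree addresses. -/
def TA (ρ : ℕ) (w : List (AL j D)) : Prop :=
  AV ρ w ∧ ∀ l ∈ w.getLast?, l.2 ≠ none ∧ l.2 ≠ some 0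

/-- The point with tree address `w` over the core point `x`. -/
def pt (x : FreeGroup (cprm j h a b D).S) (w : List (AL j D)) : FreeGroup (cprm j h a b D).S :=
  K.aw (ext (t ((K.cell t).vx x))) ((K.cell t).vx x) w * x

theorem mem_Qp (z : FreeGroup (cprm j h a b D).S) :
    z ∈ (K.cell t).Qp ↔ ∃ x w, (K.cell t).Qc x ∧ TA (K.R ^ 14) w ∧ z = pt K t x w :=
  ⟨fun ⟨x, w, h1, h2, h3, h4⟩ => ⟨x, w, (Qc_iff K t x).1 h1, ⟨h2, h3⟩, h4⟩,
    fun ⟨x, w, h1, h2, h4⟩ => ⟨x, w, (Qc_iff K t x).2 h1, h2.1, h2.2, h4⟩⟩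

omit [NeZero D] in
theorem TA.tail {ρ : ℕ} {l : AL j D} {w : List (AL j D)} (h : TA ρ (l :: w)) : TA ρ w := by
  refine ⟨⟨h.1.1.tail, (Nat.le_succ _).trans h.1.2⟩, fun l' hl => h.2 l' ?_⟩
  obtain _ | ⟨l1, w⟩ := w
  · simp at hl
  · rwa [List.getLast?_cons_cons]

theorem lab_slot (v : (K.cell t).V) (i : Fin j) :
    (cprm j h a b D).slot ((K.cell t).lab v i) = i := rfl

theorem vx_pt (x : FreeGroup (cprm j h a b D).S) (w : List (AL j D)) :
    (K.cell t).vx (pt K t x w) = go K.τ (sl w) ((K.cell t).vx x) := by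
  rw [pt, aw_eq, vx_mk, sw_al]; rfl

theorem al_last : ∀ (w : List (AL j D)) (l : AL j D),
    (al K T y (w ++ [l])).getLast? = some (lt K T y l [])
  | [], _ => rfl
  | l' :: w, l => by
    have := al_last w l
    obtain _ | ⟨l1, w⟩ := w
    · rfl
    · exact this

/-- The root of a tree is the gate of its points. -/
theorem gate {x z : FreeGroup (cprm j h a b D).S} (hx : (K.cell t).Qc x) (hz : (K.cell t).Qc z)
    {w : List (AL j D)} {ρ : ℕ} (hw : TA ρ w) :
    nr (pt K t x w * z⁻¹) = w.length + nr (x * z⁻¹) := by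
  obtain ⟨v, hv, e⟩ := ex_red (x * z⁻¹)
  have e2 : x = mk v * z := by rw [← e, inv_mul_cancel_right]
  have h1 := wk_core (lab_slot K t) hv hz (e2 ▸ hx)
  have h2 : IsReduced (al K (ext (t ((K.cell t).vx x))) ((K.cell t).vx x) w ++ v) := by
    refine List.isChain_append.2 ⟨al_red K _ _ hw.1.1, hv, fun l hl l' hl' hs => ?_⟩
    obtain rfl | ⟨w, l0, rfl⟩ := w.eq_nil_or_concat'
    · simp [al] at hl
    rw [al_last] at hl
    obtain rfl := Option.some.inj hl
    obtain ⟨i, _ | ι⟩ := l0
    · exact absurd rfl (hw.2 (i, none) (by simp)).1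
    obtain _ | ⟨⟨s, bb⟩, v⟩ := v
    · simp at hl'
    obtain rfl := Option.some.inj hl'
    cases bb
    · have h3 : x = (of s)⁻¹ * (mk v * z) := by rw [e2, mk_cons, mk_false, mul_assoc]
      have h4 := h1.2.2
      rw [← h3] at h4
      obtain rfl : _ = s := hs
      have h5 : ι + ext (t ((K.cell t).vx x)) [] i =
          ext (t ((K.τ i)⁻¹ (K.τ i ((K.cell t).vx x)))) [] i := congrArg (·.2.2) h4
      rw [inv_ap] at h5
      exact absurd (congrArg some (add_eq_right.1 h5)) (hw.2 (i, some ι) (by simp)).2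
    · rfl
  rw [pt, mul_assoc, e, aw_eq, mul_mk, nr_mk h2, nr_mk hv, List.length_append, al_length]

theorem pt_inj {x x' : FreeGroup (cprm j h a b D).S} (hx : (K.cell t).Qc x)
    (hx' : (K.cell t).Qc x') {w w' : List (AL j D)} {ρ : ℕ} (hw : TA ρ w) (hw' : TA ρ w')
    (e : pt K t x w = pt K t x' w') : x = x' ∧ w = w' := by
  have h1 := gate K t hx hx hw
  have h2 := gate K t hx hx' hw
  have h3 := gate K t hx' hx hw'
  have h4 := gate K t hx' hx' hw'
  rw [mul_inv_cancel, (nr_zero _).2 rfl] at h1 h4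
  rw [e] at h1 h2
  obtain rfl : x = x' := mul_inv_eq_one.1 ((nr_zero _).1 (by omega))
  exact ⟨rfl, aw_inj K _ _ hw.1.1 hw'.1.1 (mul_right_cancel e)⟩

end CL

end Pool.Agent.P.MP_9167e9_an
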