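import Pool.Agent.P.MP_9167e9_an.Cell.Loc

/-!
Module CELL: the concrete cells are good.
-/

noncomputable section
open scoped Classical

namespace Pool.Agent.P.MP_9167e9_an

namespace CL

open FreeGroup Bas

variable {j h a b D : ℕ} [NeZero D] (K : Core j h a b) (t : K.V → Om j D (K.R ^ 14))

/-- The letter spelled by `l` at the point with address `w` over `x`. -/
def lx (x : FreeGroup (cprm j h a b D).S) (l : AL j D) (w : List (AL j D)) :
    (cprm j h a b D).S × Bool :=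
  lt K (ext (t ((K.cell t).vx x))) ((K.cell t).vx x) l w

theorem pt_some (x : FreeGroup (cprm j h a b D).S) (i : Fin j) (ι : ZMod D) (w : List (AL j D)) :
    pt K t x ((i, some ι) :: w) = of (lx K t x (i, some ι) w).1 * pt K t x w := mul_assoc _ _ _

theorem pt_none (x : FreeGroup (cprm j h a b D).S) (i : Fin j) (w : List (AL j D)) :
    pt K t x ((i, none) :: w) = (of (lx K t x (i, none) w).1)⁻¹ * pt K t x w := mul_assoc _ _ _

theorem pt_nil (x : FreeGroup (cprm j h a b D).S) : pt K t x [] = x := one_mul x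

omit [NeZero D] in
theorem TA_nil (ρ : ℕ) : TA (j := j) (D := D) ρ [] := ⟨⟨.nil, Nat.zero_le _⟩, by simp⟩

/-- The edges of the core with its trees. -/
def SE (y : FreeGroup (cprm j h a b D).S) (s : (cprm j h a b D).S) : Prop :=
  CE (K.cell t) y s ∨ ∃ x w i, (K.cell t).Qc x ∧
    ((∃ ι, TA (K.R ^ 14) ((i, some ι) :: w) ∧ y = pt K t x w ∧ s = (lx K t x (i, some ι) w).1) ∨
      (TA (K.R ^ 14) ((i, none) :: w) ∧ y = pt K t x ((i, none) :: w) ∧
        s = (lx K t x (i, none) w).1))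

theorem rel_pt {x : FreeGroup (cprm j h a b D).S} (hx : (K.cell t).Qc x)
    (z : FreeGroup (cprm j h a b D).S) : ∀ {w}, TA (K.R ^ 14) w →
      (Rel (SE K t) z (pt K t x w) ↔ Rel (SE K t) z 1)
  | [], _ => by rw [pt_nil]; exact rel_core (lab_slot K t) (fun _ _ => Or.inl) hx z
  | (i, some ι) :: w, hw => by
    rw [pt_some, ← rel_pt hx z hw.tail]
    exact (Rel.step _ (Or.inr ⟨x, w, i, hx, Or.inl ⟨ι, hw, rfl, rfl⟩⟩)).symm
  | (i, none) :: w, hw => by
    rw [← rel_pt hx z hw.tail, Rel.step _ (Or.inr ⟨x, w, i, hx, Or.inr ⟨hw, rfl, rfl⟩⟩), pt_none,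
      mul_inv_cancel_left]

theorem wk_Qp {x : FreeGroup (cprm j h a b D).S} {v : List ((cprm j h a b D).S × Bool)}
    (hv : IsReduced v) (hx : x ∈ (K.cell t).Qp) (hy : mk v * x ∈ (K.cell t).Qp) :
    Wk (SE K t) x v :=
  wk_of _ (T := fun y => y ∈ (K.cell t).Qp) (fun y hy z => by
    obtain ⟨x, w, h1, h2, rfl⟩ := (mem_Qp K t y).1 hy
    exact rel_pt K t h1 z h2) hv hx hy

theorem SE.lam {y : FreeGroup (cprm j h a b D).S} {s : (cprm j h a b D).S} (hs : SE K t y s) :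
    s.2.1 = K.lam (K.τ s.1 ((K.cell t).vx y)) s.1 := by
  rcases hs with h1 | ⟨x, w, i, -, ⟨ι, -, rfl, rfl⟩ | ⟨-, rfl, rfl⟩⟩
  · exact congrArg (·.2.1) h1.2
  · rw [vx_pt]; rfl
  · rw [vx_pt]; exact congrArg (K.lam · i) (ap_inv _ _).symm

/-- The label of the incoming edge of slot `i`. -/
def inl (x : FreeGroup (cprm j h a b D).S) (i : Fin j) : List (AL j D) → (cprm j h a b D).S
  | [] => (K.cell t).lab ((K.cell t).vx x) i
  | l :: w => if i = l.1 ∧ l.2 ≠ none then (lx K t x l w).1 else (lx K t x (i, none) (l :: w)).1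

theorem eq_inl {x : FreeGroup (cprm j h a b D).S} (hx : (K.cell t).Qc x) {w : List (AL j D)}
    (hw : TA (K.R ^ 14) w) {s : (cprm j h a b D).S} (hs : SE K t ((of s)⁻¹ * pt K t x w) s) :
    s = inl K t x s.1 w := by
  rcases hs with h1 | ⟨x', w', i, hx', ⟨ι, h1, h2, h3⟩ | ⟨h1, h2, h3⟩⟩
  · have h2 := Cell.Qc.fwd _ s.1 h1.1
    have h3 := h1.2
    rw [show (K.cell t).lab _ s.1 = s from h3.symm, mul_inv_cancel_left] at h2
    obtain ⟨-, rfl⟩ := pt_inj K t hx h2 hw (TA_nil _) (pt_nil K t _).symm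
    rwa [vx_inv, ap_inv, pt_nil] at h3
  · obtain ⟨rfl, rfl⟩ := pt_inj K t hx hx' hw h1
      (by rw [pt_some, ← h3, ← h2, mul_inv_cancel_left])
    rw [inl, if_pos ⟨by rw [h3]; rfl, by simp⟩, ← h3]
  · rw [pt_none, ← h3] at h2
    obtain ⟨rfl, rfl⟩ := pt_inj K t hx hx' hw h1.tail (mul_left_cancel h2)
    obtain rfl : s.1 = i := by rw [h3]; rfl
    obtain _ | ⟨l, w⟩ := w
    · exact absurd rfl (h1.2 (s.1, none) (by simp)).1
    · rw [inl, if_neg fun h4 => h4.2 (((List.isChain_cons_cons.1 h1.1.1).1 h4.1).1 rfl), ← h3]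

theorem conn_Qp : Conn (K.cell t).Qp := by
  have sub : ∀ x, (K.cell t).Qc x → x ∈ (K.cell t).Qp := fun x hx =>
    (mem_Qp K t x).2 ⟨x, [], hx, TA_nil _, (pt_nil K t x).symm⟩
  have key : ∀ x, (K.cell t).Qc x → ∀ w, TA (K.R ^ 14) w → Relation.ReflTransGen
      (fun a b => b ∈ (K.cell t).Qp ∧ ∃ s, b = of s * a ∨ a = of s * b) x (pt K t x w) ∧
      Relation.ReflTransGen
      (fun a b => b ∈ (K.cell t).Qp ∧ ∃ s, b = of s * a ∨ a = of s * b) (pt K t x w) x := by
    intro x hx w hw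
    induction w with
    | nil => rw [pt_nil]; exact ⟨.refl, .refl⟩
    | cons l w ih =>
      have h1 := (mem_Qp K t _).2 ⟨x, _, hx, hw, rfl⟩
      have h2 := (mem_Qp K t _).2 ⟨x, _, hx, hw.tail, rfl⟩
      obtain ⟨i, _ | ι⟩ := l
      · have e : pt K t x w = of (lx K t x (i, none) w).1 * pt K t x ((i, none) :: w) := by
          rw [pt_none, mul_inv_cancel_left]
        exact ⟨(ih hw.tail).1.tail ⟨h1, _, Or.inr e⟩, (ih hw.tail).2.head ⟨h2, _, Or.inl e⟩⟩
      · exact ⟨(ih hw.tail).1.tail ⟨h1, _, Or.inl (pt_some K t x i ι w)⟩,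
          (ih hw.tail).2.head ⟨h2, _, Or.inr (pt_some K t x i ι w)⟩⟩
  intro y hy z hz
  obtain ⟨x, w, h1, h2, rfl⟩ := (mem_Qp K t y).1 hy
  obtain ⟨x', w', h3, h4, rfl⟩ := (mem_Qp K t z).1 hz
  refine ((key x h1 w h2).2.trans ?_).trans (key x' h3 w' h4).1
  refine Relation.ReflTransGen.mono ?_ _ _ (conn x h1 x' h3)
  exact fun _ _ h => ⟨sub _ h.1, h.2⟩

theorem split {S : Type} (z : FreeGroup S) {L : ℕ} (hL : L ≤ nr z) :
    ∃ u v, IsReduced (u ++ v) ∧ z = mk (u ++ v) ∧ v.length = L := by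
  obtain ⟨v, hv, rfl⟩ := ex_red z
  rw [nr_mk hv] at hL
  refine ⟨v.take (v.length - L), v.drop (v.length - L), ?_, ?_, ?_⟩
  · rwa [List.take_append_drop]
  · rw [List.take_append_drop]
  · rw [List.length_drop]; omega

theorem ok (hK : K.OK D) : (K.cell t).OK where
  R_big := hK.R_big
  S_le := by
    refine le_of_eq_of_le ?_ hK.S_le
    simp [cprm, mul_assoc]
  h_le := hK.h_le
  j_le := hK.j_le
  card := hK.card
  girth := hK.girth
  gap := hK.gap
  code := hK.code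
  lab_slot := lab_slot K t
  sub := fun x hx => (mem_Qp K t x).2 ⟨x, [], hx, TA_nil _, (pt_nil K t x).symm⟩
  conn := conn_Qp K t
  inv := fun y hy p hp hv => by
    obtain ⟨x, w, h1, h2, rfl⟩ := (mem_Qp K t y).1 hy
    exact (mem_Qp K t _).2 ⟨x * p, w, mulP x p h1 hp hv, h2, by
      rw [pt, pt, vx_mul x p hv, mul_assoc]⟩
  depth := fun y hy => by
    obtain ⟨x, w, h1, h2, rfl⟩ := (mem_Qp K t y).1 hy
    refine ⟨x, h1, ?_⟩
    rw [gate K t h1 h1 h2, mul_inv_cancel, (nr_zero _).2 rfl]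
    exact h2.1.2
  indeg := fun y hy s s' h1 h2 e => by
    have h3 := (wk_Qp K t (v := [(s, false)]) IsReduced.singleton hy h1).2
    have h4 := (wk_Qp K t (v := [(s', false)]) IsReduced.singleton hy h2).2
    rw [mk_nil, one_mul] at h3 h4
    obtain ⟨x, w, h5, h6, rfl⟩ := (mem_Qp K t y).1 hy
    rw [eq_inl K t h5 h6 h3, eq_inl K t h5 h6 h4, show s.1 = s'.1 from e]
  pc2 := fun x x' z h1 h2 h3 h4 hL => by
    obtain ⟨u, v, hv, rfl, h5⟩ := split z hL
    have h6 := (wk_core (lab_slot K t) hv h1 h3).right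
    have h7 := (wk_core (lab_slot K t) hv h2 h4).right
    by_contra hne
    refine hK.self (sw v) _ _ (sw_red (lab_slot K t) (List.IsChain.right_of_append hv) h6)
      (by rw [sw, List.length_map]; exact h5) hne ?_
    exact (labs_of (c := K.cell t) (·.2.1.1) _
      (h6.mono fun _ _ h => congrArg (·.2.1.1) h.2)).symm.trans
      (labs_of (c := K.cell t) (·.2.1.1) _ (h7.mono fun _ _ h => congrArg (·.2.1.1) h.2))

end CL

open CL Bas in
theorem pCell : StCell := fun j h a b D _ K hK t => by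
  refine ⟨ok K t hK, fun e he hl x x' z h1 h2 h3 h4 => ?_⟩
  by_contra hL
  obtain ⟨u, v, hv, rfl, h5⟩ := split z (not_lt.1 hL)
  have h6 := (wk_core he.lab_slot hv h1 h2).right
  have h7 := (wk_Qp K t hv h3 h4).right
  refine hl (sw v) ((K.cell t).vx x') (e.vx x)
    (CL.sw_red he.lab_slot (List.IsChain.right_of_append hv) h6)
    (by rw [sw, List.length_map]; exact h5) ?_
  exact (labs_of (c := K.cell t) (·.2.1.2) _
    (h7.mono fun _ _ h => congrArg Prod.snd h.lam)).symm.trans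
    (labs_of (c := e) (·.2.1.2) _ (h6.mono fun _ _ h => congrArg (·.2.1.2) h.2))

end Pool.Agent.P.MP_9167e9_an
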